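import Mathlib
import Pool.Agent.X294.GR.Defs
import Pool.Agent.X294.GR.Minor
import Pool.Agent.X287.BP.Tri

/-! The kernel `(y-x)/(1-x-y-xy)` and its Pfaffians. -/

namespace Pool.Agent.X291.GR

open PowerSeries Pool.Agent.X294.GR Pool.Agent.X287.BP.Tri

/-- `1/(1-X)` -/
noncomputable def u : PowerSeries ℝ := PowerSeries.mk fun _ => 1

theorem u_mul : u * (1 - X) = 1 := PowerSeries.mk_one_mul_one_sub_eq_one ℝ

/-- the columns of the triangular matrix -/
noncomputable def Lc (r : PowerSeries ℝ) (k : ℕ) : PowerSeries ℝ := (X * u) ^ k * r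

theorem Lc_zero (r : PowerSeries ℝ) {i k : ℕ} (h : i < k) : coeff i (Lc r k) = 0 := by
  unfold Lc
  rw [mul_pow, mul_assoc, coeff_X_pow_mul', if_neg (by omega)]

theorem Lc_diag (r : PowerSeries ℝ) (h0 : constantCoeff r = 1) (k : ℕ) :
    coeff k (Lc r k) = 1 := by
  unfold Lc
  rw [mul_pow, mul_assoc, coeff_X_pow_mul', if_pos le_rfl, Nat.sub_self]
  have hu : constantCoeff u = 1 := by simp [u, ← coeff_zero_eq_constantCoeff_apply]
  rw [coeff_zero_eq_constantCoeff_apply, map_mul, map_pow, hu, h0]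
  simp

/-- the truncated sum -/
noncomputable def GK (κ : ℝ) (r : PowerSeries ℝ) (K : ℕ) : S2 :=
  ∑ k ∈ Finset.range K, C (C (κ * 2 ^ k)) *
    (PowerSeries.map C (Lc r k) * C (Lc r (k + 1)) - PowerSeries.map C (Lc r (k + 1)) * C (Lc r k))

theorem ent_mul (f g : PowerSeries ℝ) (i j : ℕ) :
    ent (PowerSeries.map C f * C g) i j = coeff i f * coeff j g := by
  unfold ent
  rw [coeff_mul_C, coeff_map, coeff_C_mul]

theorem ent_GK (κ : ℝ) (r : PowerSeries ℝ) (K i j : ℕ) : ent (GK κ r K) i j =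
    ∑ k ∈ Finset.range K, κ * 2 ^ k * (coeff i (Lc r k) * coeff j (Lc r (k + 1)) -
      coeff i (Lc r (k + 1)) * coeff j (Lc r k)) := by
  unfold GK
  have h1 : ∀ (s : Finset ℕ) (f : ℕ → S2), ent (∑ k ∈ s, f k) i j = ∑ k ∈ s, ent (f k) i j := by
    intro s f
    unfold ent
    rw [map_sum, map_sum]
  rw [h1]
  apply Finset.sum_congr rfl
  intro k _
  have h2 : ∀ (c : ℝ) (F : S2), ent (C (C c) * F) i j = c * ent F i j := by
    intro c F
    unfold ent
    rw [coeff_C_mul, coeff_C_mul]
  have h3 : ∀ (F F' : S2), ent (F - F') i j = ent F i j - ent F' i j := by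
    intro F F'
    unfold ent
    rw [map_sub, map_sub]
  rw [h2, h3, ent_mul, ent_mul]

theorem GK_eq (κ : ℝ) (r : PowerSeries ℝ) (G : S2)
    (hG : (1 - vx - vy - vx * vy) * G = C (C κ) * (vy - vx) * (PowerSeries.map C r * C r))
    (K : ℕ) : GK κ r K = G - vx ^ K * (C (C 2) * PowerSeries.map C u * C (X * u)) ^ K * G := by
  have hne : (1 - vx - vy - vx * vy : S2) ≠ 0 := by
    intro h
    have := congrArg (fun F : S2 => coeff 0 (coeff 0 F)) h
    simp at this
  set a : S2 := PowerSeries.map C (X * u) with ha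
  set b : S2 := C (X * u) with hb
  have ha1 : a * (1 - vx) = vx := by
    have h := congrArg (PowerSeries.map (C : ℝ →+* PowerSeries ℝ)) u_mul
    rw [map_mul, map_sub, map_one, PowerSeries.map_X] at h
    rw [ha, map_mul, PowerSeries.map_X, mul_assoc, h, mul_one]
  have hb1 : b * (1 - vy) = vy := by
    have h := congrArg (C : PowerSeries ℝ → S2) u_mul
    rw [map_mul, map_sub, map_one] at h
    rw [hb, map_mul, mul_assoc, h, mul_one]
  have hsum : GK κ r K = C (C κ) * (b - a) * (PowerSeries.map C r * C r) *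
      ∑ k ∈ Finset.range K, (C (C 2) * a * b) ^ k := by
    unfold GK
    rw [Finset.mul_sum]
    apply Finset.sum_congr rfl
    intro k _
    have hLx : ∀ k, PowerSeries.map (C : ℝ →+* PowerSeries ℝ) (Lc r k) =
        a ^ k * PowerSeries.map C r := by
      intro k
      unfold Lc
      rw [map_mul, map_pow]
    have hLy : ∀ k, (C (Lc r k) : S2) = b ^ k * C r := by
      intro k
      unfold Lc
      rw [map_mul, map_pow]
    rw [hLx, hLx, hLy, hLy, map_mul, map_mul, map_pow, map_pow]
    ring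
  have hgeom : (1 - C (C 2) * a * b) * ∑ k ∈ Finset.range K, (C (C 2) * a * b) ^ k =
      1 - (C (C 2) * a * b) ^ K := mul_neg_geom_sum _ _
  apply mul_left_cancel₀ hne
  have e1 : (1 - vx - vy - vx * vy : S2) = (1 - C (C 2) * a * b) * ((1 - vx) * (1 - vy)) := by
    have h2 : (C (C 2) : S2) = 2 := by
      rw [show (C (2 : ℝ) : PowerSeries ℝ) = 2 from map_ofNat C 2,
        show (C (2 : PowerSeries ℝ) : S2) = 2 from map_ofNat C 2]
    rw [h2]
    linear_combination (2 * b * (1 - vy)) * ha1 + (2 * vx) * hb1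
  have e2 : (b - a) * ((1 - vx) * (1 - vy)) = vy - vx := by
    linear_combination (1 - vx) * hb1 - (1 - vy) * ha1
  have e4 : vx * PowerSeries.map (C : ℝ →+* PowerSeries ℝ) u = a := by
    have h := map_mul (PowerSeries.map (C : ℝ →+* PowerSeries ℝ)) X u
    rw [PowerSeries.map_X] at h
    exact h.symm
  have e3 : vx ^ K * (C (C 2) * PowerSeries.map C u * b) ^ K = (C (C 2) * a * b) ^ K := by
    rw [← mul_pow, ← e4]
    congr 1
    ring
  rw [e3, mul_sub, mul_left_comm _ _ G, hG, hsum, e1]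
  calc (1 - C (C 2) * a * b) * ((1 - vx) * (1 - vy)) * (C (C κ) * (b - a) *
        (PowerSeries.map C r * C r) * ∑ k ∈ Finset.range K, (C (C 2) * a * b) ^ k) =
      C (C κ) * ((b - a) * ((1 - vx) * (1 - vy))) * (PowerSeries.map C r * C r) *
        ((1 - C (C 2) * a * b) * ∑ k ∈ Finset.range K, (C (C 2) * a * b) ^ k) := by ring
    _ = _ := by rw [hgeom, e2]; ring

theorem ent_X_pow (K i j : ℕ) (h : i < K) (F : S2) : ent (vx ^ K * F) i j = 0 := by
  unfold ent
  rw [coeff_X_pow_mul', if_neg (by omega), map_zero]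

theorem ent_G (κ : ℝ) (r : PowerSeries ℝ) (G : S2)
    (hG : (1 - vx - vy - vx * vy) * G = C (C κ) * (vy - vx) * (PowerSeries.map C r * C r))
    (K i j : ℕ) (h : i < K) : ent G i j =
    ∑ k ∈ Finset.range K, κ * 2 ^ k * (coeff i (Lc r k) * coeff j (Lc r (k + 1)) -
      coeff i (Lc r (k + 1)) * coeff j (Lc r k)) := by
  rw [← ent_GK, GK_eq κ r G hG K]
  have h3 : ∀ (F F' : S2), ent (F - F') i j = ent F i j - ent F' i j := by
    intro F F'
    unfold ent
    rw [map_sub, map_sub]
  rw [h3, mul_assoc, ent_X_pow K i j h, sub_zero]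

theorem tri_sum (N : ℕ) (κ : ℝ) (f g : ℕ → ℝ) (hf : f N = 0) (hg : g N = 0) :
    ∑ l ∈ Finset.range N, (∑ k ∈ Finset.range N, f k * (if l = k + 1 then κ * 2 ^ k else
      if k = l + 1 then -(κ * 2 ^ l) else 0)) * g l =
    ∑ k ∈ Finset.range N, κ * 2 ^ k * (f k * g (k + 1) - f (k + 1) * g k) := by
  have h1 : ∀ k l : ℕ, (if l = k + 1 then κ * 2 ^ k else
      if k = l + 1 then -(κ * 2 ^ l) else 0) =
      (if l = k + 1 then κ * 2 ^ k else 0) - (if k = l + 1 then κ * 2 ^ l else 0) := by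
    intro k l
    by_cases h : l = k + 1
    · rw [if_pos h, if_pos h, if_neg (by omega)]; ring
    · rw [if_neg h, if_neg h]
      split_ifs <;> ring
  simp only [h1, mul_sub, Finset.sum_sub_distrib, sub_mul]
  have a1 : ∑ l ∈ Finset.range N, (∑ k ∈ Finset.range N,
      f k * (if l = k + 1 then κ * 2 ^ k else 0)) * g l =
      ∑ k ∈ Finset.range N, κ * 2 ^ k * (f k * g (k + 1)) := by
    simp only [Finset.sum_mul]
    rw [Finset.sum_comm]
    apply Finset.sum_congr rfl
    intro k hk
    have : ∀ l, f k * (if l = k + 1 then κ * 2 ^ k else 0) * g l =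
        if l = k + 1 then f k * (κ * 2 ^ k) * g (k + 1) else 0 := by
      intro l
      split_ifs with h
      · rw [h]
      · ring
    simp only [this]
    rw [Finset.sum_ite_eq']
    split_ifs with h
    · ring
    · have hk' := Finset.mem_range.1 hk
      have hN : k + 1 = N := by
        rw [Finset.mem_range] at h
        omega
      rw [hN, hg]; ring
  have a2 : ∑ l ∈ Finset.range N, (∑ k ∈ Finset.range N,
      f k * (if k = l + 1 then κ * 2 ^ l else 0)) * g l =
      ∑ k ∈ Finset.range N, κ * 2 ^ k * (f (k + 1) * g k) := by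
    apply Finset.sum_congr rfl
    intro l hl
    have : ∀ k, f k * (if k = l + 1 then κ * 2 ^ l else 0) =
        if k = l + 1 then f (l + 1) * (κ * 2 ^ l) else 0 := by
      intro k
      split_ifs with h
      · rw [h]
      · ring
    simp only [this]
    rw [Finset.sum_ite_eq']
    split_ifs with h
    · ring
    · have hl' := Finset.mem_range.1 hl
      have hN : l + 1 = N := by
        rw [Finset.mem_range] at h
        omega
      rw [hN, hf]; ring
  rw [a1, a2]

theorem pf_kernel (m : ℕ) (κ : ℝ) (r : PowerSeries ℝ) (h0 : constantCoeff r = 1) (G : S2)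
    (hG : (1 - vx - vy - vx * vy) * G = C (C κ) * (vy - vx) * (PowerSeries.map C r * C r)) :
    pf (Matrix.of fun i j : Fin (2 * m) => ent G i j) = κ ^ m * 2 ^ (m * (m - 1)) := by
  let L : Matrix (Fin (2 * m)) (Fin (2 * m)) ℝ := Matrix.of fun i k => coeff (i : ℕ) (Lc r k)
  have hdet : L.det = 1 := by
    rw [Matrix.det_of_isLowerTriangular]
    · apply Finset.prod_eq_one
      intro i _
      exact Lc_diag r h0 i
    · intro i j hij
      have hij' : i < j := by simpa using hij
      exact Lc_zero r hij'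
  have hM : (Matrix.of fun i j : Fin (2 * m) => ent G i j) = L * T m κ * L.transpose := by
    ext i j
    rw [Matrix.of_apply, ent_G κ r G hG (2 * m) i j i.is_lt,
      ← tri_sum (2 * m) κ (fun k => coeff (i : ℕ) (Lc r k)) (fun k => coeff (j : ℕ) (Lc r k))
        (Lc_zero r i.is_lt) (Lc_zero r j.is_lt), Matrix.mul_apply]
    rw [← Fin.sum_univ_eq_sum_range (fun l => (∑ k ∈ Finset.range (2 * m),
      coeff (i : ℕ) (Lc r k) * (if l = k + 1 then κ * 2 ^ k else
      if k = l + 1 then -(κ * 2 ^ l) else 0)) * coeff (j : ℕ) (Lc r l))]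
    apply Finset.sum_congr rfl
    intro l _
    rw [Matrix.mul_apply, Matrix.transpose_apply, ← Fin.sum_univ_eq_sum_range (fun k =>
      coeff (i : ℕ) (Lc r k) * (if (l : ℕ) = k + 1 then κ * 2 ^ k else
      if k = l + 1 then -(κ * 2 ^ (l : ℕ)) else 0))]
    rfl
  rw [hM, pf_congr, hdet, one_mul, pf_T]

end Pool.Agent.X291.GR
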