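import Mathlib
import Pool.Agent.X294.GR.Bd
import Pool.Agent.X287.BP.TriG
import Pool.Agent.X291.GR.Kern

/-! The bordered kernel. -/

namespace Pool.Agent.X291.GR

open PowerSeries Pool.Agent.X294.GR

/-- the change of basis -/
noncomputable def Pf (N : ℕ) (r : PowerSeries ℝ) (i k : ℕ) : ℝ :=
  if k = 0 then (if i < N then 0 else 1) else (if i < N then coeff i (Lc r (k - 1)) else 0)

/-- the change of basis, as a matrix -/
noncomputable def PN (N : ℕ) (r : PowerSeries ℝ) : Matrix (Fin (N + 1)) (Fin (N + 1)) ℝ :=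
  Matrix.of fun i k => Pf N r i k

theorem det_PN (N : ℕ) (r : PowerSeries ℝ) (h0 : constantCoeff r = 1) :
    (PN N r).det = (-1) ^ N := by
  rw [Matrix.det_succ_row _ (Fin.last N), Finset.sum_eq_single 0]
  · have e1 : PN N r (Fin.last N) 0 = 1 := by simp [PN, Pf]
    have e2 : ((PN N r).submatrix (Fin.last N).succAbove (Fin.succAbove 0)).det = 1 := by
      rw [Matrix.det_of_isLowerTriangular]
      · apply Finset.prod_eq_one
        intro i _
        rw [Matrix.submatrix_apply, Fin.succAbove_last, Fin.succAbove_zero]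
        simp only [PN, Pf, Matrix.of_apply, Fin.val_succ, Fin.val_castSucc]
        rw [if_neg (by omega), if_pos i.is_lt, Nat.add_sub_cancel]
        exact Lc_diag r h0 i
      · intro i j hij
        have hij' : i < j := by simpa using hij
        rw [Matrix.submatrix_apply, Fin.succAbove_last, Fin.succAbove_zero]
        simp only [PN, Pf, Matrix.of_apply, Fin.val_succ, Fin.val_castSucc]
        rw [if_neg (by omega), if_pos i.is_lt, Nat.add_sub_cancel]
        exact Lc_zero r hij'
    rw [e1, e2]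
    simp
  · intro j _ hj
    have hj' : (j : ℕ) ≠ 0 := by
      intro h
      exact hj (Fin.ext h)
    have : PN N r (Fin.last N) j = 0 := by
      simp only [PN, Pf, Matrix.of_apply, Fin.val_last]
      rw [if_neg hj', if_neg (lt_irrefl N)]
    rw [this]; ring
  · intro h; exact absurd (Finset.mem_univ _) h

/-- the weights -/
noncomputable def tt (κ : ℝ) (j : ℕ) : ℝ := if j = 0 then -1 else κ * 2 ^ (j - 1)

/-- the tridiagonal function -/
noncomputable def tf (κ : ℝ) (k l : ℕ) : ℝ :=
  if l = k + 1 then tt κ k else if k = l + 1 then -(tt κ l) else 0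

theorem double_sum (N : ℕ) (κ : ℝ) (r : PowerSeries ℝ) (G : S2)
    (hG : (1 - vx - vy - vx * vy) * G = C (C κ) * (vy - vx) * (PowerSeries.map C r * C r))
    (i j : ℕ) :
    ∑ l ∈ Finset.range (N + 1), (∑ k ∈ Finset.range (N + 1), Pf N r i k * tf κ k l) * Pf N r j l =
    if i < N then (if j < N then ent G i j else coeff i r) else
      (if j < N then - coeff j r else 0) := by
  rw [Finset.sum_range_succ']
  simp only [Finset.sum_range_succ']
  have p0 : ∀ i, i < N → Pf N r i 0 = 0 := fun i h => by simp [Pf, h]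
  have p0' : ∀ i, ¬ i < N → Pf N r i 0 = 1 := fun i h => by
    unfold Pf
    rw [if_pos rfl, if_neg h]
  have p1 : ∀ i k, i < N → Pf N r i (k + 1) = coeff i (Lc r k) := fun i k h => by simp [Pf, h]
  have p1' : ∀ i k, ¬ i < N → Pf N r i (k + 1) = 0 := fun i k h => by
    unfold Pf
    rw [if_neg (by omega), if_neg h]
  have l0 : ∀ i, coeff i (Lc r 0) = coeff i r := fun i => by simp [Lc]
  have t1 : ∀ k l, tf κ (k + 1) (l + 1) = if l = k + 1 then κ * 2 ^ k else
      if k = l + 1 then -(κ * 2 ^ l) else 0 := by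
    intro k l
    unfold tf tt
    simp
  have t2 : ∀ k, tf κ (k + 1) 0 = if k = 0 then 1 else 0 := by
    intro k
    unfold tf tt
    rcases k with _ | k
    · simp
    · simp
  have t3 : ∀ l, tf κ 0 (l + 1) = if l = 0 then -1 else 0 := by
    intro l
    unfold tf tt
    rcases l with _ | l
    · simp
    · simp
  have t4 : tf κ 0 0 = 0 := by simp [tf]
  by_cases hi : i < N <;> by_cases hj : j < N
  · rw [if_pos hi, if_pos hj, p0 i hi, p0 j hj]
    simp only [zero_mul, add_zero, mul_zero]
    rw [ent_G κ r G hG N i j hi, ← tri_sum N κ (fun k => coeff i (Lc r k))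
      (fun k => coeff j (Lc r k)) (Lc_zero r hi) (Lc_zero r hj)]
    apply Finset.sum_congr rfl
    intro l _
    rw [p1 j l hj]
    congr 1
    apply Finset.sum_congr rfl
    intro k _
    rw [p1 i k hi, t1]
  · rw [if_pos hi, if_neg hj, p0 i hi, p0' j hj]
    simp only [p1' j _ hj, mul_zero, Finset.sum_const_zero, zero_add, zero_mul, add_zero, mul_one]
    simp only [t2, p1 i _ hi, mul_ite, mul_one, mul_zero]
    rw [Finset.sum_ite_eq', if_pos (Finset.mem_range.2 (by omega)), l0]
  · rw [if_neg hi, if_pos hj, p0' i hi, p0 j hj]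
    simp only [p1' i _ hi, zero_mul, Finset.sum_const_zero, zero_add, mul_zero, add_zero, one_mul]
    simp only [t3, p1 j _ hj, ite_mul, neg_mul, one_mul, zero_mul]
    rw [Finset.sum_ite_eq', if_pos (Finset.mem_range.2 (by omega)), l0]
  · rw [if_neg hi, if_neg hj, p0' i hi, p0' j hj]
    simp only [p1' i _ hi, p1' j _ hj, zero_mul, mul_zero, Finset.sum_const_zero, zero_add, t4]

theorem prod_tt (κ : ℝ) (M : ℕ) :
    ∏ k ∈ Finset.range (M + 1), tt κ (2 * k) = - (κ ^ M * 2 ^ (M ^ 2)) := by
  induction M with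
  | zero => simp [tt]
  | succ M ih =>
    rw [Finset.prod_range_succ, ih]
    unfold tt
    rw [if_neg (by omega), show 2 * (M + 1) - 1 = 2 * M + 1 by omega,
      show (M + 1) ^ 2 = M ^ 2 + (2 * M + 1) by ring, pow_succ κ, pow_add 2 (M ^ 2)]
    ring

/-- the Pfaffian of the bordered kernel -/
theorem pf_bd (M : ℕ) (κ : ℝ) (r : PowerSeries ℝ) (h0 : constantCoeff r = 1) (G : S2)
    (hG : (1 - vx - vy - vx * vy) * G = C (C κ) * (vy - vx) * (ix r * iy r)) :
    pf (bd M (ent G) (cf r)) = κ ^ M * 2 ^ (M ^ 2) := by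
  let P : Matrix (Fin (2 * (M + 1))) (Fin (2 * (M + 1))) ℝ := PN (2 * M + 1) r
  have hdet : P.det = -1 := by
    have h := det_PN (2 * M + 1) r h0
    rw [pow_succ, pow_mul] at h
    simp only [even_two, Even.neg_pow, one_pow, one_mul] at h
    exact h
  have hM : bd M (ent G) (cf r) = P * Pool.Agent.X287.BP.TriG.T (M + 1) (tt κ) * P.transpose := by
    ext i j
    have h := double_sum (2 * M + 1) κ r G hG i j
    rw [show bd M (ent G) (cf r) i j = _ from h.symm, Matrix.mul_apply]
    rw [show 2 * M + 1 + 1 = 2 * (M + 1) by ring,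
      ← Fin.sum_univ_eq_sum_range (fun l => (∑ k ∈ Finset.range (2 * (M + 1)),
        Pf (2 * M + 1) r i k * tf κ k l) * Pf (2 * M + 1) r j l)]
    apply Finset.sum_congr rfl
    intro l _
    rw [Matrix.mul_apply, Matrix.transpose_apply,
      ← Fin.sum_univ_eq_sum_range (fun k => Pf (2 * M + 1) r i k * tf κ k l)]
    rfl
  rw [hM, pf_congr, hdet, Pool.Agent.X287.BP.TriG.pf_T, prod_tt]
  ring

end Pool.Agent.X291.GR
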