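import Mathlib
import Pool.Agent.X291.GR.Bk

/-! The bordered kernel with a general border. -/

namespace Pool.Agent.X291.GR

open PowerSeries Pool.Agent.X294.GR

/-- the change of basis, the border last -/
noncomputable def Qf (N : ℕ) (r : PowerSeries ℝ) (i k : ℕ) : ℝ :=
  if k < N then (if i < N then coeff i (Lc r k) else 0) else (if i < N then 0 else 1)

/-- the change of basis, as a matrix -/
noncomputable def QN (N : ℕ) (r : PowerSeries ℝ) : Matrix (Fin (N + 1)) (Fin (N + 1)) ℝ :=
  Matrix.of fun i k => Qf N r i k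

theorem det_QN (N : ℕ) (r : PowerSeries ℝ) (h0 : constantCoeff r = 1) :
    (QN N r).det = 1 := by
  rw [Matrix.det_of_isLowerTriangular]
  · apply Finset.prod_eq_one
    intro i _
    simp only [QN, Qf, Matrix.of_apply]
    split_ifs
    · exact Lc_diag r h0 i
    · rfl
  · intro i j hij
    have hij' : i < j := by simpa using hij
    rw [Fin.lt_def] at hij'
    have hj := j.is_lt
    simp only [QN, Qf, Matrix.of_apply]
    split_ifs with h1 h2 h2
    · exact Lc_zero r hij'
    · rfl
    · rfl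
    · omega

/-- the tridiagonal function -/
noncomputable def tr (κ : ℝ) (k l : ℕ) : ℝ :=
  if l = k + 1 then κ * 2 ^ k else if k = l + 1 then -(κ * 2 ^ l) else 0

/-- the bordered function -/
noncomputable def bf (N : ℕ) (a : ℕ → ℕ → ℝ) (g : ℕ → ℝ) (i j : ℕ) : ℝ :=
  if i < N then (if j < N then a i j else g i) else (if j < N then - g j else 0)

theorem double_sum2 (N : ℕ) (κ : ℝ) (r : PowerSeries ℝ) (G : S2)
    (hG : (1 - vx - vy - vx * vy) * G = C (C κ) * (vy - vx) * (PowerSeries.map C r * C r))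
    (g : S1) (γ : ℕ → ℝ)
    (hg : ∀ i, coeff i g = ∑ k ∈ Finset.range (i + 1), coeff i (Lc r k) * γ k)
    (i j : ℕ) :
    ∑ l ∈ Finset.range (N + 1), (∑ k ∈ Finset.range (N + 1), Qf N r i k *
      bf N (tr κ) γ k l) * Qf N r j l = bf N (ent G) (cf g) i j := by
  have hg' : ∀ i, i < N → ∑ k ∈ Finset.range N, coeff i (Lc r k) * γ k = coeff i g := by
    intro i hi
    rw [hg]
    symm
    apply Finset.sum_subset
    · intro k hk
      simp at hk ⊢
      omega
    · intro k _ hk
      rw [Lc_zero r (by simpa using hk), zero_mul]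
  have q1 : ∀ i k, i < N → k < N → Qf N r i k = coeff i (Lc r k) := fun i k h h' => by
    simp [Qf, h, h']
  have q2 : ∀ i k, ¬ i < N → k < N → Qf N r i k = 0 := fun i k h h' => by
    unfold Qf
    rw [if_pos h', if_neg h]
  have q3 : ∀ i, i < N → Qf N r i N = 0 := fun i h => by
    unfold Qf
    rw [if_neg (lt_irrefl N), if_pos h]
  have q4 : ∀ i, ¬ i < N → Qf N r i N = 1 := fun i h => by
    unfold Qf
    rw [if_neg (lt_irrefl N), if_neg h]
  have b1 : ∀ k l, k < N → l < N → bf N (tr κ) γ k l = tr κ k l := fun k l h h' => by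
    simp [bf, h, h']
  have b2 : ∀ k, k < N → bf N (tr κ) γ k N = γ k := fun k h => by simp [bf, h]
  have b3 : ∀ k, k < N → bf N (tr κ) γ N k = - γ k := fun k h => by simp [bf, h]
  have b4 : bf N (tr κ) γ N N = 0 := by simp [bf]
  rw [Finset.sum_range_succ]
  by_cases hi : i < N <;> by_cases hj : j < N
  · rw [q3 j hj, mul_zero, add_zero]
    have e : ∀ l ∈ Finset.range N, (∑ k ∈ Finset.range (N + 1), Qf N r i k *
        bf N (tr κ) γ k l) * Qf N r j l = (∑ k ∈ Finset.range N, coeff i (Lc r k) *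
        (if l = k + 1 then κ * 2 ^ k else if k = l + 1 then -(κ * 2 ^ l) else 0)) *
        coeff j (Lc r l) := by
      intro l hl
      have hl' := Finset.mem_range.1 hl
      rw [Finset.sum_range_succ, q3 i hi, zero_mul, add_zero, q1 j l hj hl']
      congr 1
      apply Finset.sum_congr rfl
      intro k hk
      have hk' := Finset.mem_range.1 hk
      rw [q1 i k hi hk', b1 k l hk' hl']
      rfl
    rw [Finset.sum_congr rfl e, tri_sum N κ (fun k => coeff i (Lc r k))
      (fun k => coeff j (Lc r k)) (Lc_zero r hi) (Lc_zero r hj), ← ent_G κ r G hG N i j hi]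
    unfold bf
    rw [if_pos hi, if_pos hj]
  · rw [q4 j hj, mul_one]
    have e : ∀ l ∈ Finset.range N, (∑ k ∈ Finset.range (N + 1), Qf N r i k *
        bf N (tr κ) γ k l) * Qf N r j l = 0 := by
      intro l hl
      rw [q2 j l hj (Finset.mem_range.1 hl), mul_zero]
    rw [Finset.sum_congr rfl e, Finset.sum_const_zero, zero_add, Finset.sum_range_succ, q3 i hi,
      zero_mul, add_zero]
    have e2 : ∀ k ∈ Finset.range N, Qf N r i k * bf N (tr κ) γ k N =
        coeff i (Lc r k) * γ k := by
      intro k hk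
      rw [q1 i k hi (Finset.mem_range.1 hk), b2 k (Finset.mem_range.1 hk)]
    rw [Finset.sum_congr rfl e2, hg' i hi]
    unfold bf
    rw [if_pos hi, if_neg hj]
    rfl
  · rw [q3 j hj, mul_zero, add_zero]
    have e : ∀ l ∈ Finset.range N, (∑ k ∈ Finset.range (N + 1), Qf N r i k *
        bf N (tr κ) γ k l) * Qf N r j l = - (coeff j (Lc r l) * γ l) := by
      intro l hl
      have hl' := Finset.mem_range.1 hl
      rw [Finset.sum_range_succ, q4 i hi, one_mul, b3 l hl', q1 j l hj hl']
      have e3 : ∀ k ∈ Finset.range N, Qf N r i k * bf N (tr κ) γ k l = 0 := by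
        intro k hk
        rw [q2 i k hi (Finset.mem_range.1 hk), zero_mul]
      rw [Finset.sum_congr rfl e3, Finset.sum_const_zero, zero_add]
      ring
    rw [Finset.sum_congr rfl e, Finset.sum_neg_distrib, hg' j hj]
    unfold bf
    rw [if_neg hi, if_pos hj]
    rfl
  · rw [q4 j hj, mul_one]
    have e : ∀ l ∈ Finset.range N, (∑ k ∈ Finset.range (N + 1), Qf N r i k *
        bf N (tr κ) γ k l) * Qf N r j l = 0 := by
      intro l hl
      rw [q2 j l hj (Finset.mem_range.1 hl), mul_zero]
    rw [Finset.sum_congr rfl e, Finset.sum_const_zero, zero_add, Finset.sum_range_succ, q4 i hi,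
      b4, mul_zero, add_zero]
    have e3 : ∀ k ∈ Finset.range N, Qf N r i k * bf N (tr κ) γ k N = 0 := by
      intro k hk
      rw [q2 i k hi (Finset.mem_range.1 hk), zero_mul]
    rw [Finset.sum_congr rfl e3, Finset.sum_const_zero]
    unfold bf
    rw [if_neg hi, if_neg hj]

theorem pf_bd_gen (M : ℕ) (κ : ℝ) (r : PowerSeries ℝ) (h0 : constantCoeff r = 1) (G : S2)
    (hG : (1 - vx - vy - vx * vy) * G = C (C κ) * (vy - vx) * (ix r * iy r))
    (g : S1) (γ : ℕ → ℝ)
    (hg : ∀ i, coeff i g = ∑ k ∈ Finset.range (i + 1), coeff i (Lc r k) * γ k) :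
    pf (bd M (ent G) (cf g)) = pf (bd M (tr κ) γ) := by
  let Q : Matrix (Fin (2 * (M + 1))) (Fin (2 * (M + 1))) ℝ := QN (2 * M + 1) r
  have hdet : Q.det = 1 := det_QN (2 * M + 1) r h0
  have hM : bd M (ent G) (cf g) = Q * bd M (tr κ) γ * Q.transpose := by
    ext i j
    have h := double_sum2 (2 * M + 1) κ r G hG g γ hg i j
    rw [show bd M (ent G) (cf g) i j = _ from h.symm, Matrix.mul_apply]
    rw [show 2 * M + 1 + 1 = 2 * (M + 1) by ring,
      ← Fin.sum_univ_eq_sum_range (fun l => (∑ k ∈ Finset.range (2 * (M + 1)),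
        Qf (2 * M + 1) r i k * bf (2 * M + 1) (tr κ) γ k l) * Qf (2 * M + 1) r j l)]
    apply Finset.sum_congr rfl
    intro l _
    rw [Matrix.mul_apply, Matrix.transpose_apply,
      ← Fin.sum_univ_eq_sum_range (fun k => Qf (2 * M + 1) r i k * bf (2 * M + 1) (tr κ) γ k l)]
    rfl
  rw [hM, pf_congr, hdet, one_mul]

end Pool.Agent.X291.GR
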