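import Mathlib
import Pool.Agent.X291.GR.Bk2

/-! The coordinates of the geometric border. -/

namespace Pool.Agent.X291.GR

open PowerSeries Pool.Agent.X294.GR

/-- the coordinates of `β / (1 - (1 + s) X)` in the basis `(X/(1-X))^k r` -/
noncomputable def gam (q s β : ℝ) (k : ℕ) : ℝ :=
  if k = 0 then β else β * (s ^ k + (1 - q) * s ^ (k - 1))

theorem gam_step (q s β : ℝ) (K : ℕ) : gam q s β (K + 2) = s * gam q s β (K + 1) := by
  unfold gam
  rw [if_neg (by omega), if_neg (by omega), show K + 2 - 1 = K + 1 by omega,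
    show K + 1 - 1 = K by omega]
  ring

theorem gam_sum (q s β : ℝ) (w : PowerSeries ℝ) (K : ℕ) :
    (1 - C s * w) * ∑ k ∈ Finset.range (K + 2), C (gam q s β k) * w ^ k =
      C β + C (β * (1 - q)) * w - C (s * gam q s β (K + 1)) * w ^ (K + 2) := by
  induction K with
  | zero =>
    have h1 : gam q s β 1 = β * (s + (1 - q)) := by simp [gam]
    have h0 : gam q s β 0 = β := by simp [gam]
    simp only [Finset.sum_range_succ, Finset.range_zero, Finset.sum_empty, zero_add, h0, h1]
    simp only [map_mul, map_add, map_sub, map_one]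
    ring
  | succ K ih =>
    rw [Finset.sum_range_succ, mul_add, ih, show K + 1 + 1 = K + 2 by ring, gam_step]
    simp only [map_mul]
    ring

theorem border_coord (q s β : ℝ) (r g : PowerSeries ℝ) (hr : r * (1 - C q * X) = 1)
    (hg : g * (1 - C (1 + s) * X) = C β) (i : ℕ) :
    coeff i g = ∑ k ∈ Finset.range (i + 1), coeff i (Lc r k) * gam q s β k := by
  set w : PowerSeries ℝ := X * u with hw
  have hw1 : w * (1 - X) = X := by rw [hw, mul_assoc, u_mul, mul_one]
  set Γ : PowerSeries ℝ := ∑ k ∈ Finset.range (i + 2), C (gam q s β k) * w ^ k with hΓ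
  have hs := gam_sum q s β w i
  rw [← hΓ] at hs
  have hE : constantCoeff (1 - C (1 + s) * X : PowerSeries ℝ) ≠ 0 := by simp
  have hinv := PowerSeries.mul_inv_cancel _ hE
  set E : PowerSeries ℝ := 1 - C (1 + s) * X with hEdef
  have hE2 : E = (1 - C s * w) * (1 - X) := by
    rw [hEdef, map_add, map_one]
    linear_combination C s * hw1
  have h1 : E * (g - r * Γ) = w ^ (i + 2) * (C (s * gam q s β (i + 1)) * (1 - X) * r) := by
    have h2 : E * (r * Γ) = r * (1 - X) * ((1 - C s * w) * Γ) := by rw [hE2]; ring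
    rw [mul_sub, mul_comm E g, hg, h2, hs]
    simp only [map_mul, map_sub, map_one]
    linear_combination (- C β) * hr + (- r * C β * (1 - C q)) * hw1
  have h3 : g - r * Γ = X ^ (i + 2) *
      (u ^ (i + 2) * (C (s * gam q s β (i + 1)) * (1 - X) * r) * E⁻¹) := by
    calc g - r * Γ = (E * E⁻¹) * (g - r * Γ) := by rw [hinv, one_mul]
      _ = E⁻¹ * (E * (g - r * Γ)) := by ring
      _ = _ := by rw [h1, hw, mul_pow]; ring
  have h4 : coeff i (g - r * Γ) = 0 := by
    rw [h3, coeff_X_pow_mul', if_neg (by omega)]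
  rw [map_sub, sub_eq_zero] at h4
  rw [h4, hΓ, Finset.mul_sum, map_sum, Finset.sum_range_succ]
  have h5 : ∀ k, coeff i (r * (C (gam q s β k) * w ^ k)) = coeff i (Lc r k) * gam q s β k := by
    intro k
    rw [show r * (C (gam q s β k) * w ^ k) = C (gam q s β k) * Lc r k by unfold Lc; rw [hw]; ring,
      coeff_C_mul]
    ring
  simp only [h5]
  rw [Lc_zero r (by omega : i < i + 1), zero_mul, add_zero]

theorem gam_le (q s β : ℝ) (hq : 0 < q) (hq1 : q < 1) (hs : 1 ≤ s) (k : ℕ) :
    |gam q s β k| ≤ 2 * |β| * s ^ k := by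
  unfold gam
  have hs0 : 0 ≤ s := by linarith
  split_ifs with h
  · rw [h, pow_zero, mul_one]
    have := abs_nonneg β
    linarith
  · rw [abs_mul]
    have h1 : |s ^ k + (1 - q) * s ^ (k - 1)| ≤ 2 * s ^ k := by
      have h2 : 0 ≤ s ^ k := by positivity
      have h3 : 0 ≤ s ^ (k - 1) := by positivity
      have h4 : s ^ (k - 1) ≤ s ^ k := pow_le_pow_right₀ hs (by omega)
      rw [abs_of_nonneg (by nlinarith)]
      nlinarith
    calc |β| * |s ^ k + (1 - q) * s ^ (k - 1)| ≤ |β| * (2 * s ^ k) :=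
          mul_le_mul_of_nonneg_left h1 (abs_nonneg β)
      _ = _ := by ring

end Pool.Agent.X291.GR
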