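import Mathlib
import Pool.Agent.X291.GR.Bk3
import Pool.Agent.X287.BP.AbsLe

/-! The crude bound for the bordered tridiagonal matrix. -/

namespace Pool.Agent.X291.GR

open PowerSeries Pool.Agent.X294.GR

/-- the weights -/
noncomputable def sw (M : ℕ) (i : Fin (2 * (M + 1))) : ℝ :=
  if (i : ℕ) < 2 * M + 1 then (√2) ^ (i : ℕ) else 1

theorem prod_sw (M : ℕ) : ∏ i, sw M i = 2 ^ (M ^ 2) * (√2) ^ M := by
  have h1 : ∏ i, sw M i = ∏ i ∈ Finset.range (2 * (M + 1)),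
      (if i < 2 * M + 1 then (√2 : ℝ) ^ i else 1) :=
    Fin.prod_univ_eq_prod_range (fun i => if i < 2 * M + 1 then (√2 : ℝ) ^ i else 1)
      (2 * (M + 1))
  rw [h1, show 2 * (M + 1) = 2 * M + 1 + 1 by ring, Finset.prod_range_succ,
    if_neg (lt_irrefl _), mul_one]
  have h2 : ∏ i ∈ Finset.range (2 * M + 1), (if i < 2 * M + 1 then (√2 : ℝ) ^ i else 1) =
      ∏ i ∈ Finset.range (2 * M + 1), (√2 : ℝ) ^ i := by
    apply Finset.prod_congr rfl
    intro i hi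
    rw [if_pos (Finset.mem_range.1 hi)]
  rw [h2, Finset.prod_pow_eq_pow_sum, Finset.sum_range_id]
  have e : (2 * M + 1) * (2 * M + 1 - 1) / 2 = 2 * M ^ 2 + M := by
    rw [Nat.add_sub_cancel, show (2 * M + 1) * (2 * M) = 2 * (2 * M ^ 2 + M) by ring,
      Nat.mul_div_cancel_left _ (by norm_num)]
  rw [e, pow_add, pow_mul, Real.sq_sqrt (by norm_num)]

theorem pf_bd_le (κ c : ℝ) (γ : ℕ → ℝ) (hγ : ∀ k, |γ k| ≤ c * (√2) ^ k) :
    ∃ C0 : ℝ, 1 ≤ C0 ∧ ∀ M : ℕ, |pf (bd M (tr κ) γ)| ≤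
      C0 ^ (M + 1) * ((2 * (M + 1)).factorial : ℝ) * 2 ^ (M ^ 2) := by
  have hs1 : (1 : ℝ) ≤ √2 := by
    rw [show (1 : ℝ) = √1 by simp]
    exact Real.sqrt_le_sqrt (by norm_num)
  have hs2 : (√2 : ℝ) ≤ 2 := by
    rw [Real.sqrt_le_left (by norm_num)]
    norm_num
  have hs0 : (0 : ℝ) ≤ √2 := by linarith
  have hss : (√2 : ℝ) * √2 = 2 := Real.mul_self_sqrt (by norm_num)
  set c' : ℝ := |κ| + |c| with hc'
  have hc0 : 0 ≤ c' := by positivity
  refine ⟨2 * c' + 1, by linarith, fun M => ?_⟩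
  have hA : ∀ i j, |bd M (tr κ) γ i j| ≤ c' * (sw M i * sw M j) := by
    intro i j
    have hk : ∀ k : ℕ, |κ * 2 ^ k| ≤ c' * ((√2) ^ k * (√2) ^ (k + 1)) := by
      intro k
      rw [abs_mul, abs_of_nonneg (by positivity : (0 : ℝ) ≤ 2 ^ k)]
      have h1 : (2 : ℝ) ^ k = (√2) ^ k * (√2) ^ k := by rw [← mul_pow, hss]
      have h2 : (√2 : ℝ) ^ k ≤ (√2) ^ (k + 1) := pow_le_pow_right₀ hs1 (by omega)
      have h3 : |κ| ≤ c' := by
        rw [hc']; have := abs_nonneg c; linarith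
      rw [h1]
      apply mul_le_mul h3 _ (by positivity) hc0
      exact mul_le_mul_of_nonneg_left h2 (by positivity)
    have hg : ∀ k : ℕ, |γ k| ≤ c' * (√2) ^ k := by
      intro k
      refine (hγ k).trans ?_
      apply mul_le_mul_of_nonneg_right _ (by positivity)
      rw [hc']
      have := le_abs_self c
      have := abs_nonneg κ
      linarith
    unfold bd sw
    rw [Matrix.of_apply]
    split_ifs with h1 h2 h2
    · unfold tr
      split_ifs with h3 h4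
      · rw [h3]
        exact hk i
      · rw [abs_neg, h4, mul_comm ((√2 : ℝ) ^ ((j : ℕ) + 1))]
        exact hk j
      · rw [abs_zero]
        positivity
    · rw [mul_one]
      exact hg i
    · rw [abs_neg, one_mul]
      exact hg j
    · rw [abs_zero]
      positivity
  have hsw : ∀ i, 0 ≤ sw M i := by
    intro i
    unfold sw
    split_ifs
    · positivity
    · norm_num
  have h := Pool.Agent.X287.BP.AbsLe.pf_abs_le (bd M (tr κ) γ) c' (sw M) hc0 hsw hA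
  refine h.trans ?_
  rw [prod_sw]
  have f1 : ((2 * (M + 1)).factorial : ℝ) / (2 ^ (M + 1) * ((M + 1).factorial : ℝ)) ≤
      ((2 * (M + 1)).factorial : ℝ) := by
    apply div_le_self (by positivity)
    have a1 : (1 : ℝ) ≤ 2 ^ (M + 1) := one_le_pow₀ (by norm_num)
    have a2 : (1 : ℝ) ≤ ((M + 1).factorial : ℝ) := by
      exact_mod_cast Nat.succ_le_of_lt (Nat.factorial_pos _)
    nlinarith
  have f2 : c' ^ (M + 1) * (√2) ^ M ≤ (2 * c' + 1) ^ (M + 1) := by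
    have b1 : (√2 : ℝ) ^ M ≤ 2 ^ (M + 1) := by
      calc (√2 : ℝ) ^ M ≤ 2 ^ M := pow_le_pow_left₀ hs0 hs2 M
        _ ≤ 2 ^ (M + 1) := pow_le_pow_right₀ (by norm_num) (by omega)
    calc c' ^ (M + 1) * (√2) ^ M ≤ c' ^ (M + 1) * 2 ^ (M + 1) :=
          mul_le_mul_of_nonneg_left b1 (by positivity)
      _ = (2 * c') ^ (M + 1) := by rw [← mul_pow]; ring
      _ ≤ _ := pow_le_pow_left₀ (by positivity) (by linarith) _
  calc ((2 * (M + 1)).factorial : ℝ) / (2 ^ (M + 1) * ((M + 1).factorial : ℝ)) * c' ^ (M + 1) *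
        (2 ^ (M ^ 2) * (√2) ^ M)
      ≤ ((2 * (M + 1)).factorial : ℝ) * c' ^ (M + 1) * (2 ^ (M ^ 2) * (√2) ^ M) := by
        apply mul_le_mul_of_nonneg_right _ (by positivity)
        exact mul_le_mul_of_nonneg_right f1 (by positivity)
    _ = (c' ^ (M + 1) * (√2) ^ M) * (((2 * (M + 1)).factorial : ℝ) * 2 ^ (M ^ 2)) := by ring
    _ ≤ (2 * c' + 1) ^ (M + 1) * (((2 * (M + 1)).factorial : ℝ) * 2 ^ (M ^ 2)) :=
        mul_le_mul_of_nonneg_right f2 (by positivity)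
    _ = _ := by ring

/-- the bordered kernel with a geometric border -/
theorem pf_bd_geom (κ q β : ℝ) (hq : 0 < q) (hq1 : q < 1) (r : PowerSeries ℝ)
    (hr : r * (1 - C q * X) = 1) (G : S2)
    (hG : (1 - vx - vy - vx * vy) * G = C (C κ) * (vy - vx) * (ix r * iy r))
    (g : S1) (hg : g * (1 - C (1 + √2) * X) = C β) :
    ∃ C0 : ℝ, 1 ≤ C0 ∧ ∀ M : ℕ, |pf (bd M (ent G) (cf g))| ≤
      C0 ^ (M + 1) * ((2 * (M + 1)).factorial : ℝ) * 2 ^ (M ^ 2) := by
  have hs1 : (1 : ℝ) ≤ √2 := by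
    rw [show (1 : ℝ) = √1 by simp]
    exact Real.sqrt_le_sqrt (by norm_num)
  obtain ⟨C0, h1, h2⟩ := pf_bd_le κ (2 * |β|) (gam q (√2) β) (gam_le q (√2) β hq hq1 hs1)
  refine ⟨C0, h1, fun M => ?_⟩
  have h0 : constantCoeff r = 1 := by
    have h := congrArg (constantCoeff (R := ℝ)) hr
    simpa using h
  rw [pf_bd_gen M κ r h0 G hG g (gam q (√2) β) (border_coord q (√2) β r g hr hg)]
  exact h2 M

end Pool.Agent.X291.GR
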