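import Mathlib
import Pool.Agent.X287.BP.Minors

/-! Extended minors, with a vertex at infinity. -/

namespace Pool.Agent.X291.GR.Ext

open PowerSeries

/-- the difference, extended to the vertex at infinity -/
def D : Option ℕ → Option ℕ → ℝ
  | some a, some b => (b : ℝ) - a
  | some _, none => 1
  | none, some _ => -1
  | none, none => 0

/-- the extended vectors -/
noncomputable def Vq (N : ℕ) (q : ℝ) (r : PowerSeries ℝ) : Option ℕ → Fin (N + 1) → ℝ
  | some k, i => if (i : ℕ) < N then coeff (i : ℕ) (((X + C q) * r) ^ k * r) else 0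
  | none, i => if (i : ℕ) < N then 0 else 1

/-- numerators -/
def vv : Option ℕ → ℝ
  | some a => a
  | none => 1

/-- denominators -/
def ww : Option ℕ → ℝ
  | some _ => 1
  | none => 0

theorem D_eq (a b : Option ℕ) : D a b = vv b * ww a - vv a * ww b := by
  rcases a with _ | a <;> rcases b with _ | b <;> simp [D, vv, ww]

theorem prod_D (n : ℕ) (f : Fin n → Option ℕ) :
    ∏ x, ∏ y ∈ Finset.Ioi x, D (f x) (f y) =
      (Matrix.projVandermonde (fun i => vv (f i)) (fun i => ww (f i))).det := by
  rw [Matrix.det_projVandermonde]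
  apply Finset.prod_congr rfl
  intro x _
  apply Finset.prod_congr rfl
  intro y _
  exact D_eq _ _

theorem ext_minors (N : ℕ) (q : ℝ) (hq : 0 < q) (r : PowerSeries ℝ)
    (hr : (1 - C q * X) * r = 1) :
    ∃ χ : (Fin (N + 1) → Option ℕ) → ℝ, (∀ f, 0 ≤ χ f) ∧ ∀ f : Fin (N + 1) → Option ℕ,
      (Matrix.of fun i j => Vq N q r (f j) i).det =
        χ f * ∏ x, ∏ y ∈ Finset.Ioi x, D (f x) (f y) := by
  obtain ⟨c, hc, hmin⟩ := Pool.Agent.X287.BP.Minors.minors N q hq r hr
  have key : ∀ f : Fin (N + 1) → Option ℕ, ∃ x : ℝ, 0 ≤ x ∧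
      (Matrix.of fun i j => Vq N q r (f j) i).det =
        x * ∏ x, ∏ y ∈ Finset.Ioi x, D (f x) (f y) := by
    intro f
    by_cases h0 : ∀ j, f j ≠ none
    · refine ⟨0, le_rfl, ?_⟩
      rw [zero_mul]
      apply Matrix.det_eq_zero_of_row_eq_zero (Fin.last N)
      intro j
      obtain ⟨a, ha⟩ := Option.ne_none_iff_exists'.1 (h0 j)
      rw [Matrix.of_apply, ha]
      simp [Vq]
    · push Not at h0
      obtain ⟨p, hp⟩ := h0
      by_cases h1 : ∀ j, j ≠ p → f j ≠ none
      · have h2 : ∀ k : Fin N, ∃ a : ℕ, f (p.succAbove k) = some a := fun k =>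
          Option.ne_none_iff_exists'.1 (h1 _ (Fin.succAbove_ne p k))
        choose g hg using h2
        refine ⟨c * q ^ (∑ j, g j), by positivity, ?_⟩
        rw [prod_D, Matrix.det_succ_row _ (Fin.last N), Matrix.det_succ_row _ p,
          Finset.sum_eq_single p, Finset.sum_eq_single (Fin.last N)]
        · have e1 : (Matrix.of fun i j => Vq N q r (f j) i) (Fin.last N) p = 1 := by
            rw [Matrix.of_apply, hp]
            simp [Vq]
          have e2 : (Matrix.projVandermonde (fun i => vv (f i)) (fun i => ww (f i))) p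
              (Fin.last N) = 1 := by
            simp [Matrix.projVandermonde_apply, hp, vv, ww]
          have e3 : (Matrix.of fun i j => Vq N q r (f j) i).submatrix (Fin.last N).succAbove
              p.succAbove = Matrix.of fun (i j : Fin N) =>
                coeff (i : ℕ) (((X + C q) * r) ^ (g j) * r) := by
            ext i j
            rw [Matrix.submatrix_apply, Matrix.of_apply, hg, Fin.succAbove_last]
            simp [Vq]
          have e4 : (Matrix.projVandermonde (fun i => vv (f i)) (fun i => ww (f i))).submatrix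
              p.succAbove (Fin.last N).succAbove =
              Matrix.vandermonde (fun i => (g i : ℝ)) := by
            ext i j
            rw [Matrix.submatrix_apply, Matrix.projVandermonde_apply, Matrix.vandermonde_apply, hg,
              Fin.succAbove_last]
            simp [vv, ww]
          rw [e1, e2, e3, e4, hmin, Matrix.det_vandermonde]
          rw [add_comm ((Fin.last N : Fin (N + 1)) : ℕ) (p : ℕ)]
          ring
        · intro j _ hj
          have hj' : (j : ℕ) < N := by
            have := Fin.val_lt_last hj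
            simpa using this
          have : (Matrix.projVandermonde (fun i => vv (f i)) (fun i => ww (f i))) p j = 0 := by
            rw [Matrix.projVandermonde_apply, hp]
            simp only [vv, ww]
            rw [zero_pow]
            · simp
            · rw [Fin.val_rev]
              omega
          rw [this]; ring
        · intro h; exact absurd (Finset.mem_univ _) h
        · intro j _ hj
          obtain ⟨a, ha⟩ := Option.ne_none_iff_exists'.1 (h1 j hj)
          have : (Matrix.of fun i j => Vq N q r (f j) i) (Fin.last N) j = 0 := by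
            rw [Matrix.of_apply, ha]
            simp [Vq]
          rw [this]; ring
        · intro h; exact absurd (Finset.mem_univ _) h
      · push Not at h1
        obtain ⟨p', hne, hp'⟩ := h1
        refine ⟨0, le_rfl, ?_⟩
        rw [zero_mul]
        apply Matrix.det_zero_of_column_eq hne
        intro i
        rw [Matrix.of_apply, Matrix.of_apply, hp, hp']
  choose χ h1 h2 using key
  exact ⟨χ, h1, h2⟩

/-- the extended vectors, for an odd number of finite rows -/
noncomputable def Vp (M : ℕ) (q : ℝ) (r : PowerSeries ℝ) : Option ℕ → Fin (2 * (M + 1)) → ℝ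
  | some k, i => if (i : ℕ) < 2 * M + 1 then coeff (i : ℕ) (((X + C q) * r) ^ k * r) else 0
  | none, i => if (i : ℕ) < 2 * M + 1 then 0 else 1

theorem ext_minors' (M : ℕ) (q : ℝ) (hq : 0 < q) (r : PowerSeries ℝ)
    (hr : (1 - C q * X) * r = 1) :
    ∃ χ : (Fin (2 * (M + 1)) → Option ℕ) → ℝ, (∀ f, 0 ≤ χ f) ∧
      ∀ f : Fin (2 * (M + 1)) → Option ℕ,
      (Matrix.of fun i j => Vp M q r (f j) i).det =
        χ f * ∏ x, ∏ y ∈ Finset.Ioi x, D (f x) (f y) := by
  obtain ⟨χ, h1, h2⟩ := ext_minors (2 * M + 1) q hq r hr
  refine ⟨χ, h1, fun f => ?_⟩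
  have h3 := h2 f
  have h4 : (Matrix.of fun i j => Vp M q r (f j) i) =
      (Matrix.of fun i j => Vq (2 * M + 1) q r (f j) i) := by
    ext i j
    simp only [Matrix.of_apply]
    rcases f j with _ | k <;> rfl
  rw [h4]
  exact h3

end Pool.Agent.X291.GR.Ext
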