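import Mathlib
import Pool.Agent.X294.GR.Osym
import Pool.Agent.X294.GR.Bd
import Pool.Agent.X177.GR.Y5
import Pool.Agent.X287.BP.Growth2

/-! The last step of the second limit. -/

namespace Pool.Agent.X291.GR

open Filter PowerSeries Pool.Agent.X294.GR

/-- The border numbers: `f_1 = 2`, `f_2 = 4`, `f_k = 2 f_{k-1} + f_{k-2}`. -/
def ff : ℕ → ℤ
  | 0 => 0
  | 1 => 2
  | k + 2 => 2 * ff (k + 1) + ff k

theorem ff_two : ff 2 = 4 := by simp [ff]

/-- The bordered matrix `B_{2N}` of the problem. -/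
def Bmat (N : ℕ) : Matrix (Fin (2 * N)) (Fin (2 * N)) ℝ := Matrix.of fun i j =>
  if (i : ℕ) < 2 * N - 1 then
    (if (j : ℕ) < 2 * N - 1 then (aa ((i : ℕ) + 1) ((j : ℕ) + 1) : ℝ) else (ff ((i : ℕ) + 1) : ℝ))
  else (if (j : ℕ) < 2 * N - 1 then - (ff ((j : ℕ) + 1) : ℝ) else 0)

theorem ff_eq (φ : S1) (h : φ * (1 - 2 * X - X ^ 2) = 1) (k : ℕ) :
    (ff (k + 1) : ℝ) = 2 * coeff k φ := by
  apply Pool.Agent.X177.GR.fib (fun k => (ff k : ℝ)) _ _ _ φ h k
  · simp [ff]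
  · rw [ff_two]; norm_num
  · intro k hk
    obtain ⟨l, rfl⟩ : ∃ l, k = l + 3 := ⟨k - 3, by omega⟩
    have e : ff (l + 3) = 2 * ff (l + 2) + ff (l + 1) := by rw [ff]
    rw [show l + 3 - 1 = l + 2 by omega, show l + 3 - 2 = l + 1 by omega, e]
    push_cast
    ring

theorem Bmat_eq (φ : S1) (h : φ * (1 - 2 * X - X ^ 2) = 1) (M : ℕ) :
    Bmat (M + 1) = (2 : ℝ) • bd M (ent FF) (cf φ) := by
  ext i j
  simp only [Bmat, bd, Matrix.of_apply, Matrix.smul_apply, smul_eq_mul, cf]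
  rw [show 2 * (M + 1) - 1 = 2 * M + 1 by omega]
  split_ifs
  · exact aa_ent i j
  · exact ff_eq φ h i
  · rw [ff_eq φ h j]; ring
  · ring

theorem pf_Bmat (φ : S1) (h : φ * (1 - 2 * X - X ^ 2) = 1) (M : ℕ) :
    pf (Bmat (M + 1)) = 2 ^ (M + 1) * pf (bd M (ent FF) (cf φ)) := by
  rw [Bmat_eq φ h, pf_smul]

theorem second (φ : S1) (hφ : φ * (1 - 2 * X - X ^ 2) = 1) (c : ℝ) (hc : 1 ≤ c)
    (H1 : ∀ M : ℕ, (2 : ℝ) ^ (M ^ 2) ≤ c ^ (M + 1) * pf (bd M (ent FF) (cf φ)))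
    (H2 : ∀ M : ℕ, pf (bd M (ent FF) (cf φ)) ≤
      c ^ (M + 1) * ((2 * (M + 1)).factorial : ℝ) * 2 ^ (M ^ 2)) :
    Tendsto (fun n : ℕ => (pf (Bmat n)) ^ ((2 : ℝ) / (2 * n - 1) ^ 2)) atTop (nhds (√2)) := by
  have hc0 : 0 < c := by linarith
  have hg := Pool.Agent.X287.BP.Growth2.growth2
    (fun n => if n = 0 then 1 else pf (Bmat n)) (4 * c) (by linarith) ?_ ?_
  · refine hg.congr' ?_
    filter_upwards [eventually_ge_atTop 1] with n hn
    rw [if_neg (by omega)]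
  · intro n
    rcases n with _ | M
    · simp
    · rw [if_neg (by omega), pf_Bmat φ hφ]
      have h1 := H1 M
      have e1 : (2 : ℝ) ^ ((M + 1) ^ 2) = 2 ^ (M ^ 2) * 2 ^ (2 * M + 1) := by
        rw [← pow_add]; congr 1; ring
      have e2 : (2 : ℝ) ^ (2 * M + 1) ≤ 4 ^ (M + 1) := by
        rw [show (4 : ℝ) = 2 ^ 2 by norm_num, ← pow_mul]
        exact pow_le_pow_right₀ (by norm_num) (by omega)
      have h3 : 0 ≤ c ^ (M + 1) * pf (bd M (ent FF) (cf φ)) :=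
        le_trans (by positivity) h1
      calc (2 : ℝ) ^ ((M + 1) ^ 2) = 2 ^ (M ^ 2) * 2 ^ (2 * M + 1) := e1
        _ ≤ (c ^ (M + 1) * pf (bd M (ent FF) (cf φ))) * 4 ^ (M + 1) :=
          mul_le_mul h1 e2 (by positivity) h3
        _ ≤ (c ^ (M + 1) * pf (bd M (ent FF) (cf φ))) * (4 ^ (M + 1) * 2 ^ (M + 1)) := by
          apply mul_le_mul_of_nonneg_left _ h3
          have : (1 : ℝ) ≤ 2 ^ (M + 1) := one_le_pow₀ (by norm_num)
          have h4 : (0 : ℝ) < 4 ^ (M + 1) := by positivity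
          nlinarith
        _ = (4 * c) ^ (M + 1) * (2 ^ (M + 1) * pf (bd M (ent FF) (cf φ))) := by
          rw [mul_pow]; ring
  · intro n
    rcases n with _ | M
    · simp
    · rw [if_neg (by omega), pf_Bmat φ hφ]
      have h2 := H2 M
      have e1 : (2 : ℝ) ^ (M ^ 2) ≤ 2 ^ ((M + 1) ^ 2) :=
        pow_le_pow_right₀ (by norm_num) (Nat.pow_le_pow_left (by omega) 2)
      calc 2 ^ (M + 1) * pf (bd M (ent FF) (cf φ))
          ≤ 2 ^ (M + 1) * (c ^ (M + 1) * ((2 * (M + 1)).factorial : ℝ) * 2 ^ (M ^ 2)) :=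
            mul_le_mul_of_nonneg_left h2 (by positivity)
        _ ≤ 2 ^ (M + 1) * (c ^ (M + 1) * ((2 * (M + 1)).factorial : ℝ) * 2 ^ ((M + 1) ^ 2)) := by
            apply mul_le_mul_of_nonneg_left _ (by positivity)
            exact mul_le_mul_of_nonneg_left e1 (by positivity)
        _ = (2 * c) ^ (M + 1) * ((2 * (M + 1)).factorial : ℝ) * 2 ^ ((M + 1) ^ 2) := by
            rw [mul_pow]; ring
        _ ≤ (4 * c) ^ (M + 1) * ((2 * (M + 1)).factorial : ℝ) * 2 ^ ((M + 1) ^ 2) := by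
            apply mul_le_mul_of_nonneg_right _ (by positivity)
            apply mul_le_mul_of_nonneg_right _ (by positivity)
            exact pow_le_pow_left₀ (by positivity) (by linarith) _

end Pool.Agent.X291.GR
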