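import Mathlib
import Pool.Agent.X291.GR.Fin2
import Pool.Agent.X291.GR.Bk4
import Pool.Agent.X294.GR.Bor2

/-! The second limit. -/

namespace Pool.Agent.X291.GR

open Filter PowerSeries Pool.Agent.X294.GR

/-- `1 / (1 - 2x - x²)` -/
noncomputable def phi : S1 := (1 - 2 * X - X ^ 2)⁻¹

theorem phi_mul : phi * (1 - 2 * X - X ^ 2) = 1 := by
  unfold phi
  rw [PowerSeries.inv_mul_cancel]
  simp

theorem Cq_eq : (C q : S1) ^ 2 + 2 * C q = 1 := by
  have h := congrArg (fun a : ℝ => (C a : S1)) q_eq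
  simp only [map_add, map_mul, map_pow, map_one, map_ofNat] at h
  exact h

theorem one_sub_zz : 1 - zz q ^ 2 = rr q ^ 2 * (C (2 * q) * (1 - 2 * X - X ^ 2)) := by
  have h1 := rr_mul q
  have h2 : zz q = (X + C q) * rr q := rfl
  have h3 := Cq_eq
  have h4 : (C (2 * q) : S1) = 2 * C q := by simp only [map_mul, map_ofNat]
  rw [h2, h4]
  have h5 : (1 : S1) = (rr q * (1 - C q * X)) ^ 2 := by rw [h1, one_pow]
  have h6 : (1 - C q * X) ^ 2 - (X + C q) ^ 2 = 2 * (C q : S1) * (1 - 2 * X - X ^ 2) := by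
    linear_combination (1 - 2 * X - X ^ 2 - 1 + 2 * X + 2 * X ^ 2 - 1 + 0) * h3
  calc 1 - ((X + C q) * rr q) ^ 2 = (rr q * (1 - C q * X)) ^ 2 - ((X + C q) * rr q) ^ 2 := by
        rw [← h5]
    _ = rr q ^ 2 * ((1 - C q * X) ^ 2 - (X + C q) ^ 2) := by ring
    _ = _ := by rw [h6]

/-- `(1+q²)/(2q)` -/
noncomputable def k1 : ℝ := (1 + q ^ 2) / (2 * q)

theorem k1_ge : 1 ≤ k1 := by
  have := q_pos
  unfold k1
  rw [le_div_iff₀ (by linarith)]
  nlinarith [sq_nonneg (1 - q)]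

theorem ai_ge : 1 ≤ ai := by
  have := q_pos
  have h := q_eq
  unfold ai
  rw [le_div_iff₀ (by linarith)]
  nlinarith [sq_nonneg q]

/-- the first border -/
noncomputable def g1 : S1 := C k1 * phi

theorem g1_spec : g1 * (1 - zz q ^ 2) = rr q * (C 1 + C q * zz q) := by
  have h1 : g1 * (1 - zz q ^ 2) = C (k1 * (2 * q)) * rr q ^ 2 := by
    have e : (C (k1 * (2 * q)) : S1) = C k1 * C (2 * q) := map_mul C _ _
    rw [one_sub_zz, g1, e]
    linear_combination (C k1 * rr q ^ 2 * C (2 * q)) * phi_mul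
  have h2 : k1 * (2 * q) = 1 + q ^ 2 := by
    have := q_pos
    unfold k1
    field_simp
  have h3 : zz q = (X + C q) * rr q := rfl
  have h4 := rr_mul q
  rw [h1, h2, h3]
  simp only [map_add, map_one, map_pow]
  linear_combination (rr q) * h4

/-- the second border -/
noncomputable def g2 : S1 := C (1 / (1 - q)) * (1 - C (1 + √2) * X)⁻¹

theorem g2_mul : g2 * (1 - C (1 + √2) * X) = C (1 / (1 - q)) := by
  unfold g2
  rw [mul_assoc, PowerSeries.inv_mul_cancel, mul_one]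
  simp

theorem g2_spec : g2 * (1 - zz q ^ 2) = rr q * (C 1 + C 1 * zz q) := by
  have hs : √2 = q + 1 := by unfold q; ring
  have h3 : zz q = (X + C q) * rr q := rfl
  have h4 := rr_mul q
  have h5 : (1 - zz q) = rr q * (C (1 - q) * (1 - C (1 + √2) * X)) := by
    have e1 : (C (1 - q) : S1) = 1 - C q := by simp only [map_sub, map_one]
    have e2 : (C (1 + √2) : S1) = 2 + C q := by
      rw [hs, show 1 + (q + 1) = 2 + q by ring]
      simp only [map_add, map_ofNat]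
    rw [h3, e1, e2]
    linear_combination (-1 : S1) * h4 + (- rr q * X) * Cq_eq
  have h6 : g2 * (1 - zz q) = rr q := by
    have h7 : (C (1 - q) : S1) * C (1 / (1 - q)) = 1 := by
      rw [← map_mul]
      have := q_lt
      rw [mul_one_div_cancel (by linarith), map_one]
    rw [h5]
    linear_combination (rr q * C (1 - q)) * g2_mul + rr q * h7
  rw [map_one]
  linear_combination (1 + zz q) * h6

/-- scaling a bordered matrix -/
theorem pf_bd_scale (M : ℕ) (a b : ℝ) (ha : 0 < a) (A : ℕ → ℕ → ℝ) (g : ℕ → ℝ) :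
    pf (bd M (fun i j => a * A i j) (fun i => b * g i)) = a ^ M * b * pf (bd M A g) := by
  set l : ℝ := √a with hl
  have hl0 : 0 < l := Real.sqrt_pos.2 ha
  have hll : l * l = a := Real.mul_self_sqrt ha.le
  let d : Fin (2 * (M + 1)) → ℝ := fun i => if (i : ℕ) < 2 * M + 1 then l else b / l
  have hdet : (Matrix.diagonal d).det = a ^ M * b := by
    rw [Matrix.det_diagonal]
    have h1 : ∏ i, d i = ∏ i ∈ Finset.range (2 * (M + 1)),
        (if i < 2 * M + 1 then l else b / l) :=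
      Fin.prod_univ_eq_prod_range (fun i => if i < 2 * M + 1 then l else b / l) (2 * (M + 1))
    rw [h1, show 2 * (M + 1) = 2 * M + 1 + 1 by ring, Finset.prod_range_succ,
      if_neg (lt_irrefl _)]
    have h2 : ∏ i ∈ Finset.range (2 * M + 1), (if i < 2 * M + 1 then l else b / l) =
        ∏ _i ∈ Finset.range (2 * M + 1), l := by
      apply Finset.prod_congr rfl
      intro i hi
      rw [if_pos (Finset.mem_range.1 hi)]
    rw [h2, Finset.prod_const, Finset.card_range, pow_succ, pow_mul, pow_two, hll]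
    field_simp
  rw [← hdet, ← pf_congr]
  congr 1
  ext i j
  rw [Matrix.diagonal_transpose, Matrix.mul_diagonal, Matrix.diagonal_mul]
  simp only [bd, Matrix.of_apply, d]
  split_ifs
  · rw [← hll]; ring
  · field_simp
  · field_simp
  · ring

theorem pf_E1 (M : ℕ) : pf (bd M (ent E1) (cf g1)) =
    ai ^ M * k1 * pf (bd M (ent FF) (cf phi)) := by
  rw [← pf_bd_scale M ai k1 ai_pos]
  congr 2
  · funext i j
    unfold E1
    rw [ent_smul]
  · funext i
    unfold cf g1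
    rw [coeff_C_mul]

theorem H1 (M : ℕ) : (2 : ℝ) ^ (M ^ 2) ≤
    (((1 + q) / q) ^ 2 * k1) ^ (M + 1) * pf (bd M (ent FF) (cf phi)) := by
  have hq := q_pos
  have hk := k1_ge
  have ha := ai_pos
  have h := bor_lower M g1 g1_spec
  rw [pf_E1] at h
  set PF : ℝ := pf (bd M (ent FF) (cf phi)) with hPF
  set t : ℝ := (1 + q) / q with ht
  have ht1 : 1 ≤ t := by
    rw [ht, le_div_iff₀ hq]; linarith
  have htq : 1 + q = t * q := by rw [ht]; field_simp
  have hA : 0 < q ^ (2 * M + 1) * (ai * (1 + q ^ 2)) ^ M := by positivity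
  have hPFpos : 0 < PF := by
    have h1 : 0 < (1 + q) ^ (2 * M + 1) * (ai ^ M * k1 * PF) :=
      lt_of_lt_of_le (by positivity) h
    have h2 : 0 < (1 + q) ^ (2 * M + 1) * (ai ^ M * k1) := by positivity
    have h3 : 0 < ((1 + q) ^ (2 * M + 1) * (ai ^ M * k1)) * PF := by
      calc 0 < (1 + q) ^ (2 * M + 1) * (ai ^ M * k1 * PF) := h1
        _ = _ := by ring
    exact (mul_pos_iff_of_pos_left h2).1 h3
  have key : (1 + q) ^ (2 * M + 1) * (ai ^ M * k1) ≤
      (q ^ (2 * M + 1) * (ai * (1 + q ^ 2)) ^ M) * (t ^ 2 * k1) ^ (M + 1) := by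
    rw [htq, mul_pow t q, mul_pow ai, mul_pow (t ^ 2), ← pow_mul, pow_succ k1]
    have b1 : (1 : ℝ) ≤ (1 + q ^ 2) ^ M := one_le_pow₀ (by nlinarith [sq_nonneg q])
    have b2 : (1 : ℝ) ≤ k1 ^ M := one_le_pow₀ hk
    have b3 : t ^ (2 * M + 1) ≤ t ^ (2 * (M + 1)) := pow_le_pow_right₀ ht1 (by omega)
    have b4 : t ^ (2 * M + 1) ≤ t ^ (2 * (M + 1)) * ((1 + q ^ 2) ^ M * k1 ^ M) := by
      calc t ^ (2 * M + 1) ≤ t ^ (2 * (M + 1)) := b3
        _ = t ^ (2 * (M + 1)) * (1 * 1) := by ring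
        _ ≤ _ := by
          apply mul_le_mul_of_nonneg_left _ (by positivity)
          exact mul_le_mul b1 b2 (by norm_num) (by positivity)
    calc t ^ (2 * M + 1) * q ^ (2 * M + 1) * (ai ^ M * k1) =
          t ^ (2 * M + 1) * (q ^ (2 * M + 1) * (ai ^ M * k1)) := by ring
      _ ≤ (t ^ (2 * (M + 1)) * ((1 + q ^ 2) ^ M * k1 ^ M)) *
          (q ^ (2 * M + 1) * (ai ^ M * k1)) := mul_le_mul_of_nonneg_right b4 (by positivity)
      _ = _ := by ring
  have h5 : (q ^ (2 * M + 1) * (ai * (1 + q ^ 2)) ^ M) * (2 : ℝ) ^ (M ^ 2) ≤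
      (q ^ (2 * M + 1) * (ai * (1 + q ^ 2)) ^ M) * ((t ^ 2 * k1) ^ (M + 1) * PF) := by
    calc (q ^ (2 * M + 1) * (ai * (1 + q ^ 2)) ^ M) * (2 : ℝ) ^ (M ^ 2) =
          q ^ (2 * M + 1) * ((ai * (1 + q ^ 2)) ^ M * 2 ^ (M ^ 2)) := by ring
      _ ≤ (1 + q) ^ (2 * M + 1) * (ai ^ M * k1 * PF) := h
      _ = ((1 + q) ^ (2 * M + 1) * (ai ^ M * k1)) * PF := by ring
      _ ≤ ((q ^ (2 * M + 1) * (ai * (1 + q ^ 2)) ^ M) * (t ^ 2 * k1) ^ (M + 1)) * PF :=
          mul_le_mul_of_nonneg_right key hPFpos.le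
      _ = _ := by ring
  exact le_of_mul_le_mul_left h5 hA

theorem PF_nonneg (M : ℕ) : 0 ≤ pf (bd M (ent FF) (cf phi)) := by
  have h := H1 M
  have hq := q_pos
  have hk := k1_ge
  have h2 : 0 < (((1 + q) / q) ^ 2 * k1) ^ (M + 1) := by positivity
  have h3 : 0 < (((1 + q) / q) ^ 2 * k1) ^ (M + 1) * pf (bd M (ent FF) (cf phi)) :=
    lt_of_lt_of_le (by positivity) h
  exact ((mul_pos_iff_of_pos_left h2).1 h3).le

theorem H2 : ∃ C0 : ℝ, 1 ≤ C0 ∧ ∀ M : ℕ, pf (bd M (ent FF) (cf phi)) ≤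
    C0 ^ (M + 1) * ((2 * (M + 1)).factorial : ℝ) * 2 ^ (M ^ 2) := by
  obtain ⟨C0, h1, h2⟩ := pf_bd_geom (ai * (1 + q ^ 2)) q (1 / (1 - q)) q_pos q_lt (rr q)
    (rr_mul q) E2 E2_ker g2 g2_mul
  refine ⟨C0, h1, fun M => ?_⟩
  have h3 := bor_upper M g1 g2 g1_spec g2_spec
  rw [pf_E1] at h3
  have h4 := (le_abs_self _).trans (h2 M)
  have h5 := PF_nonneg M
  have h6 : 1 ≤ ai ^ M * k1 := by
    have a1 : 1 ≤ ai ^ M := one_le_pow₀ ai_ge
    have a2 := k1_ge
    nlinarith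
  calc pf (bd M (ent FF) (cf phi)) = 1 * pf (bd M (ent FF) (cf phi)) := by rw [one_mul]
    _ ≤ ai ^ M * k1 * pf (bd M (ent FF) (cf phi)) := mul_le_mul_of_nonneg_right h6 h5
    _ ≤ _ := h3.trans h4

/-- **The second limit.** -/
theorem D_limit : Tendsto (fun n : ℕ => (pf (Bmat n)) ^ ((2 : ℝ) / (2 * n - 1) ^ 2)) atTop
    (nhds (√2)) := by
  obtain ⟨C0, hC0, hup⟩ := H2
  set c1 : ℝ := ((1 + q) / q) ^ 2 * k1 with hc1
  have hq := q_pos
  have hk := k1_ge
  have hc1p : 0 ≤ c1 := by rw [hc1]; positivity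
  apply second phi phi_mul (max c1 C0) (le_max_of_le_right hC0)
  · intro M
    refine (H1 M).trans ?_
    apply mul_le_mul_of_nonneg_right _ (PF_nonneg M)
    exact pow_le_pow_left₀ hc1p (le_max_left _ _) _
  · intro M
    refine (hup M).trans ?_
    apply mul_le_mul_of_nonneg_right _ (by positivity)
    apply mul_le_mul_of_nonneg_right _ (by positivity)
    exact pow_le_pow_left₀ (by linarith) (le_max_right _ _) _

end Pool.Agent.X291.GR
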